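import Pool.Agent.Helper61.GT.Goals

/-!
Packet GT-L4 (MP_552bae_an).
-/

set_option autoImplicit false

namespace Pool.Agent.Helper56.GT

open Pool.Agent.Helper61.GT

universe u v

theorem gL4 : G_L4.{u, v} := by
  intro hdec A B _ _ _ _ Φ hUB h11 hAVG hF0 hRT
  -- positivity and monotonicity of the functional
  have hmono : ∀ a b : A, IsSelfAdjoint a → IsSelfAdjoint b → a ≤ b →
      (Φ a 1).re ≤ (Φ b 1).re := by
    intro a b ha hb hab
    have h := (hF0 (b - a) (hb.sub ha)).2 (sub_nonneg.2 hab)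
    rw [map_sub, ContinuousLinearMap.sub_apply, Complex.sub_re] at h
    linarith
  have hsm : ∀ (r : ℝ) (a : A) (y : B), Φ (r • a) y = (r : ℂ) * Φ a y := by
    intro r a y
    rw [← Complex.coe_smul r a, map_smul, ContinuousLinearMap.smul_apply, smul_eq_mul]
  have hsmre : ∀ (r : ℝ) (a : A), (Φ (r • a) 1).re = r * (Φ a 1).re := by
    intro r a
    rw [hsm, Complex.re_ofReal_mul]
  -- the induction
  have key : ∀ (m : ℕ) (x : A) (y : B), IsSelfAdjoint x → ‖x‖ ≤ 2 ^ m → IsSelfAdjoint y →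
      ‖y‖ ≤ 1 → ‖Φ x y‖ ≤ 1 + 40 * (1 - 1 / 2 ^ m) * √(Φ (x ^ 4) 1).re := by
    intro m
    induction m with
    | zero =>
      intro x y hx hxn hy hyn
      rw [pow_zero] at hxn
      have := hAVG x y hx hxn hy hyn
      simpa using this
    | succ m ih =>
      intro x y hx hxn hy hyn
      have hc : (0 : ℝ) < 2 ^ m := by positivity
      obtain ⟨x', p, q, hx', hx'n, hx'4, hp0, hp1, hq0, hq1, hp4, hq4, hxx⟩ :=
        hdec A x (2 ^ m) hx hc (by rw [pow_succ] at hxn; linarith)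
      have hps : IsSelfAdjoint p := IsSelfAdjoint.of_nonneg hp0
      have hqs : IsSelfAdjoint q := IsSelfAdjoint.of_nonneg hq0
      have h1 := ih x' y hx' hx'n hy hyn
      have h2 := hRT p y hp0 hp1 hy hyn
      have h3 := hRT q y hq0 hq1 hy hyn
      have h4 : √(Φ (x' ^ 4) 1).re ≤ √(Φ (x ^ 4) 1).re :=
        Real.sqrt_le_sqrt (hmono _ _ (hx'.pow 4) (hx.pow 4) hx'4)
      have aux : ∀ s : A, IsSelfAdjoint s → ((2 : ℝ) ^ m) ^ 4 • s ≤ x ^ 4 →
          ((2 : ℝ) ^ m) ^ 2 * √(Φ s 1).re ≤ √(Φ (x ^ 4) 1).re := by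
        intro s hs hsx
        have h5 := hmono (((2 : ℝ) ^ m) ^ 4 • s) (x ^ 4) ((IsSelfAdjoint.all _).smul hs) (hx.pow 4)
          hsx
        rw [hsmre] at h5
        have h6 : ((2 : ℝ) ^ m) ^ 2 * √(Φ s 1).re = √(((2 : ℝ) ^ m) ^ 4 * (Φ s 1).re) := by
          rw [Real.sqrt_mul (by positivity)]
          congr 1
          rw [show ((2 : ℝ) ^ m) ^ 4 = (((2 : ℝ) ^ m) ^ 2) ^ 2 by ring]
          exact (Real.sqrt_sq (by positivity)).symm
        rw [h6]
        exact Real.sqrt_le_sqrt h5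
      have h5 := aux p hps hp4
      have h6 := aux q hqs hq4
      have h7 : Φ x y = Φ x' y + ((2 ^ m : ℝ) : ℂ) * (Φ p y - Φ q y) := by
        conv_lhs => rw [hxx]
        rw [map_add, ContinuousLinearMap.add_apply, hsm, map_sub, ContinuousLinearMap.sub_apply]
      have h8 : ‖Φ x y‖ ≤ ‖Φ x' y‖ + 2 ^ m * (‖Φ p y‖ + ‖Φ q y‖) := by
        rw [h7]
        refine (norm_add_le _ _).trans ?_
        rw [norm_mul, Complex.norm_real, Real.norm_of_nonneg hc.le]
        gcongr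
        exact norm_sub_le _ _
      set T := √(Φ (x ^ 4) 1).re with hT
      have hT0 : 0 ≤ T := Real.sqrt_nonneg _
      have h9 : 2 ^ m * √(Φ p 1).re ≤ T / 2 ^ m := by
        rw [le_div_iff₀ hc]
        calc 2 ^ m * √(Φ p 1).re * 2 ^ m = ((2 : ℝ) ^ m) ^ 2 * √(Φ p 1).re := by ring
          _ ≤ T := h5
      have h10 : 2 ^ m * √(Φ q 1).re ≤ T / 2 ^ m := by
        rw [le_div_iff₀ hc]
        calc 2 ^ m * √(Φ q 1).re * 2 ^ m = ((2 : ℝ) ^ m) ^ 2 * √(Φ q 1).re := by ring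
          _ ≤ T := h6
      have h11 : 2 ^ m * (‖Φ p y‖ + ‖Φ q y‖) ≤ 20 * (T / 2 ^ m) := by
        calc 2 ^ m * (‖Φ p y‖ + ‖Φ q y‖) ≤ 2 ^ m * (10 * √(Φ p 1).re + 10 * √(Φ q 1).re) := by
              gcongr
          _ = 10 * (2 ^ m * √(Φ p 1).re) + 10 * (2 ^ m * √(Φ q 1).re) := by ring
          _ ≤ 20 * (T / 2 ^ m) := by linarith
      have h12 : (0 : ℝ) ≤ 1 - 1 / 2 ^ m := by
        have : (1 : ℝ) / 2 ^ m ≤ 1 := by
          rw [div_le_one hc]
          exact one_le_pow₀ (by norm_num)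
        linarith
      have h13 : 40 * (1 - 1 / 2 ^ m) * √(Φ (x' ^ 4) 1).re ≤ 40 * (1 - 1 / 2 ^ m) * T := by
        gcongr
      have h14 : (40 : ℝ) * (1 - 1 / 2 ^ m) * T + 20 * (T / 2 ^ m) =
          40 * (1 - 1 / 2 ^ (m + 1)) * T := by
        rw [pow_succ]
        field_simp
        ring
      linarith
  intro x y hx hy hyn
  obtain ⟨m, hm⟩ := pow_unbounded_of_one_lt ‖x‖ (one_lt_two : (1 : ℝ) < 2)
  refine (key m x y hx hm.le hy hyn).trans ?_
  have h1 : (0 : ℝ) < 1 / 2 ^ m := by positivity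
  have h2 : 0 ≤ √(Φ (x ^ 4) 1).re := Real.sqrt_nonneg _
  nlinarith

end Pool.Agent.Helper56.GT
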